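import Pool.Agent.W_448so_h61.CE

/-!
SECOND ORDER THEOREM (MP_448cb3_co, proofs row 476): energies one and two of a part, and the value
of `(3,1)`.
-/

namespace Pool.Agent.GaussPoset.Win

set_option linter.unusedSectionVars false

open Finset OrderDual

universe u

variable {P : Type u} [Fintype P] [PartialOrder P] [DecidableEq P] {r i n : ℕ} {psi : P → P}
  {C : Finset P}

/-- the matching of the pendants of a part -/
theorem PS6_mtcP (Q : SO.PS6 r i psi C) : MtcP i C psi := by
  classical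
  constructor
  by_cases h : ∃ p ∈ C, p ∈ PD P i
  · right
    obtain ⟨p, hp, hpd⟩ := h
    obtain ⟨y, hy, p', hp', hpu, hd⟩ := Q.mtL p hp hpd
    obtain ⟨hl, -, y2, hy2, hc⟩ := mem_PD.1 hpd
    have e2 : y2 = y := by
      have := mem_uc.2 hy2
      rw [hy, mem_singleton] at this
      exact this
    subst e2
    have hly := lev_uc Q.H (mem_uc.2 hy2)
    have hdb : y2 ∈ dbL P i := mem_dbL.2 ⟨by omega, hc⟩
    obtain ⟨g1, g2⟩ := Q.hM.low y2 hdb (by simp)
    exact ⟨p, p', y2, psi y2, hp, hp', hpd, hpu, hy, hd, g2, hc,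
      fun z' h1 h2 => Q.pd z' h1 p hp h2 hpd, fun x' h1 h2 => Q.pu x' h1 p' hp' h2 hpu, rfl⟩
  · left
    intro z hz
    refine ⟨fun h1 => h ⟨z, hz, h1⟩, fun h1 => ?_⟩
    obtain ⟨u, -, p, hp, hpd, -⟩ := Q.mtU z hz h1
    exact h ⟨p, hp, hpd⟩

/-- without sites there are no charges -/
lemma no_sites (H : Gr P r) (hi2 : i + 1 ≤ r) (hC : Part (i + 1) C) (h0 : st i C = ∅) :
    ZL i C = ∅ ∧ ZU i C = ∅ ∧ FL i C = ∅ ∧ FU' i C = ∅ := by
  classical
  have hno : ∀ v ∈ C, lev v = i → False := by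
    intro v hv hl
    have h1 : v ∈ st i C := mem_st.2 ⟨hv, hl⟩
    rw [h0] at h1
    exact absurd h1 (Finset.notMem_empty _)
  have hC' : Part i C := ⟨fun h1 h2 => hC.up h1 h2, fun h1 h2 h3 => hC.dn h1 (by omega) h3⟩
  have hlow : ∀ z ∈ C, i ≤ lev z → False := by
    intro z hz hl
    obtain ⟨v, hv, hvl⟩ := exists_above' (x := z) (j := i) hl
    exact hno v (part_up hC' hz hv) hvl
  have hupp : ∀ z ∈ C, lev z + 2 = i → False := by
    intro z hz hl
    obtain ⟨u, hu⟩ := dc_nonempty H (x := z) (by omega)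
    have l1 := lev_dc H hu
    obtain ⟨v, hv⟩ := dc_nonempty H (x := u) (by omega)
    have l2 := lev_dc H hv
    exact hno v (hC.dn (hC.dn hz (by omega) (mem_dc.1 hu)) (by omega) (mem_dc.1 hv)) (by omega)
  refine ⟨?_, ?_, ?_, ?_⟩ <;> rw [Finset.eq_empty_iff_forall_notMem]
  · intro z hz
    rw [mem_ZL] at hz
    exact hlow z hz.1 (by omega)
  · intro z hz
    rw [mem_ZU] at hz
    exact hupp z hz.1 hz.2.1
  · intro w hw
    obtain ⟨h3, z, hz, hz2⟩ := mem_FL.1 hw
    have hzw : z ∈ uc w := by rw [hz2]; exact mem_singleton_self z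
    have l1 := lev_uc H hzw
    have l2 := (lev_PD hz).1
    exact hlow w h3 (by omega)
  · intro w hw
    obtain ⟨h3, z, hz, hz2⟩ := mem_FU'.1 hw
    have hzw : z ∈ dc w := by rw [hz2]; exact mem_singleton_self z
    have l1 := lev_dc H hzw
    have l2 := (lev_PU hz).1
    exact hupp z (hC.dn h3 (by omega) (mem_dc.1 hzw)) l2

/-- THE VALUE OF (3,1) for a part without closed pairs and flips -/
theorem so_al3 (Q : SO.PS6 r i psi C) : I2.al 3 (st i C).card (ZS i C) =
    (ZU i C).card + (FL i C).card - (ZL i C).card - (FU' i C).card := by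
  rcases Nat.eq_zero_or_pos (st i C).card with h0 | h0
  · obtain ⟨h1, h2, h3, h4⟩ := no_sites Q.H Q.hi2 Q.hC (Finset.card_eq_zero.1 h0)
    rw [h1, h2, h3, h4, h0]
    unfold I2.al dd
    simp
  · have h := so_al3_val Q.H Q.hi Q.hi2 Q.hM (fun z hz => so_up3 Q.H Q.nlL hz)
      (fun x hx => so_dn3 Q.H Q.nlU hx) Q.hC h0 (PS6_mtcP Q)
    rw [h]
    ring

/-! ## energies one and two -/

lemma sts_PD (H : Gr P r) {p y : P} (hl : lev p = i + 2) (hy : uc p = {y})
    (hc : (uc y).card = 2) : (sts i p).card = 2 := by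
  rw [← hc]
  congr 1
  ext v
  rw [mem_sts_iff H hl, hy]
  simp

lemma stD_PU (H : Gr P r) {p u : P} (hl : lev p + 2 = i) (hu : dc p = {u})
    (hc : (dc u).card = 2) : (stD i p).card = 2 := by
  rw [← hc]
  congr 1
  ext v
  rw [mem_stD_iff H hl, hu]
  simp

lemma eq_of_le_sum {f g : P → ℕ} (h : ∀ x, f x ≤ g x) (hs : ∑ x, g x ≤ ∑ x, f x) : g = f := by
  funext x
  by_contra hne
  have h1 : f x < g x := lt_of_le_of_ne (h x) (Ne.symm hne)
  have h2 : ∑ x, f x < ∑ x, g x :=
    Finset.sum_lt_sum (fun y _ => h y) ⟨x, mem_univ x, h1⟩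
  omega

/-- the cores of energy at most two -/
theorem so_cl2 (Q : SO.PSO r i psi C) {e : P → ℕ} (hc : IsCore i ∅ psi e)
    (hn : ∑ x, e x ≤ 2) :
    Rk (lv P i) 0 (Fe i e) ∨ (∃ z ∈ PD P i, e = cl z) ∨ ∃ x ∈ PU P i, e = cu x := by
  classical
  have H := Q.H
  have hi2 := Q.hi2
  by_cases hadm : AdmL i e ∧ AdmU i e
  swap
  · exact Or.inl (Rk_of_not_adm hadm 0)
  obtain ⟨hA, hB⟩ := hadm
  by_cases h1 : ∃ z ∈ PD P i, e z ≠ 0
  · obtain ⟨z, hz, hez⟩ := h1
    right; left
    refine ⟨z, hz, ?_⟩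
    obtain ⟨hl, h1c, y, hzy, hyc⟩ := mem_PD.1 hz
    have huc : uc z = {y} := by
      obtain ⟨y', hy'⟩ := Finset.card_eq_one.1 h1c
      have := mem_uc.2 hzy
      rw [hy', mem_singleton] at this
      rw [this]
      exact hy'
    have hey := pos_up H hA (z := z) (y := y) (by omega) (by omega) hzy
    refine eq_of_le_sum (fun x => ?_) (by rw [clb_sum_cl, h1c]; exact hn)
    have := ExpC_cl_le z x
    by_cases h : cl z x = 0
    · omega
    · rcases ExpC_cl_pos (z := z) (x := x) (by omega) with h5 | h5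
      · rw [h5]
        have := ExpC_cl_z z
        omega
      · rw [huc, mem_singleton] at h5
        rw [h5] at this ⊢
        omega
  by_cases h2 : ∃ x ∈ PU P i, e x ≠ 0
  · obtain ⟨z, hz, hez⟩ := h2
    right; right
    refine ⟨z, hz, ?_⟩
    obtain ⟨hl, h1c, y, hzy, hyc⟩ := mem_PU.1 hz
    have hdc : dc z = {y} := by
      obtain ⟨y', hy'⟩ := Finset.card_eq_one.1 h1c
      have := mem_dc.2 hzy
      rw [hy', mem_singleton] at this
      rw [this]
      exact hy'
    have hey := pos_dn H (by omega) hB (x := z) (y := y) (by omega) (by omega) hzy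
    refine eq_of_le_sum (fun x => ?_) (by rw [sum_cu H, h1c]; exact hn)
    have hle : cu z x ≤ 1 := by unfold cu; split_ifs <;> omega
    by_cases h : cu z x = 0
    · omega
    · rcases cu_pos (x := z) (y := x) (by omega) with h5 | h5
      · rw [h5]
        have := ExpD_cu_x z
        omega
      · rw [hdc, mem_singleton] at h5
        rw [h5] at hle ⊢
        omega
  push Not at h1 h2
  rcases cl3 H Q.hi hi2 Q.hM (fun z hz => so_up3 H Q.nlL hz) (fun x hx => so_dn3 H Q.nlU hx)
    h1 h2 hc (by omega) with h | ⟨z, hz, hz2, rfl⟩ | ⟨z, hz, hz2, rfl⟩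
  · exact Or.inl h
  · rw [clb_sum_cl, card_uc_of_up H hz hz2] at hn
    omega
  · rw [sum_cu H, card_dc_of_dn H hz hz2] at hn
    omega

/-- ENERGIES ONE AND TWO -/
theorem so_lo (Q : SO.PSO r i psi C) (hc : (C.filter (· ∈ PD P i)).card =
    (C.filter (· ∈ PU P i)).card) (h1 : 1 ≤ n) (h2 : n ≤ 2) : dd ^ (st i C).card ∣ ZC i C n := by
  classical
  have H := Q.H
  have hi2 := Q.hi2
  have hC := Q.hC
  have hC' : Part i C := ⟨fun h1 h2 => hC.up h1 h2, fun h1 h2 h3 => hC.dn h1 (by omega) h3⟩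
  have hcls : ∀ e : P → ℕ, IsCore i ∅ psi e → Spt C e → ∑ x, e x ≤ 2 →
      Rk (st i C) 0 (Fe i e) ∨ (∃ z ∈ PD P i, e = cl z) ∨ ∃ x ∈ PU P i, e = cu x := by
    intro e he hs hn
    rcases so_cl2 Q he hn with h | h
    · exact Or.inl (Rk_sub (st_sub i C) h)
    · exact Or.inr h
  have hsumL : ∀ z ∈ PD P i, ∑ x, cl z x = 2 := by
    intro z hz
    rw [clb_sum_cl, (lev_PD hz).2]
  have hsumU : ∀ z ∈ PU P i, ∑ x, cu z x = 2 := by
    intro z hz
    rw [sum_cu H, (lev_PU hz).2]
  have h3 := core_part H Q.hi hi2 hC (subset_refl C) (fun x hx _ => hx) Q.hM n (by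
    intro e he hs hn
    rcases hcls e he hs (by omega) with h | ⟨z, hz, rfl⟩ | ⟨z, hz, rfl⟩
    · exact h
    · rw [hsumL z hz] at hn
      omega
    · rw [hsumU z hz] at hn
      omega)
  set F := (C.piAntidiag n).filter
    (fun e => IsCore i ∅ psi e ∧ ¬ Rk (st i C) 0 (Fe i e)) with hF
  have hZ : ZC i C n = ∑ e ∈ C.piAntidiag n, tC i C e := rfl
  rw [hZ]
  suffices hs : dd ^ (st i C).card ∣ ∑ e ∈ F, tC i C e by
    have := dvd_add h3 hs
    rwa [sub_add_cancel] at this
  rcases Nat.lt_or_ge n 2 with hn | hn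
  · have hFe : F = ∅ := by
      rw [Finset.eq_empty_iff_forall_notMem]
      intro e he
      rw [hF, mem_filter, mem_piA] at he
      obtain ⟨⟨h4, h5⟩, h6, h7⟩ := he
      rcases hcls e h6 h5 (by omega) with h | ⟨z, hz, rfl⟩ | ⟨z, hz, rfl⟩
      · exact h7 h
      · rw [hsumL z hz] at h4
        omega
      · rw [hsumU z hz] at h4
        omega
    rw [hFe, Finset.sum_empty]
    exact dvd_zero _
  have hn2 : n = 2 := by omega
  subst hn2
  set T := (C.filter (· ∈ PD P i)).image cl ∪ (C.filter (· ∈ PU P i)).image cu with hT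
  have hFT : F ⊆ T := by
    intro e he
    rw [hF, mem_filter, mem_piA] at he
    obtain ⟨⟨h4, h5⟩, h6, h7⟩ := he
    rw [hT, mem_union, mem_image, mem_image]
    rcases hcls e h6 h5 (by omega) with h | ⟨z, hz, rfl⟩ | ⟨z, hz, rfl⟩
    · exact absurd h h7
    · left
      refine ⟨z, mem_filter.2 ⟨?_, hz⟩, rfl⟩
      by_contra hzC
      have := h5 z hzC
      rw [ExpC_cl_z] at this
      omega
    · right
      refine ⟨z, mem_filter.2 ⟨?_, hz⟩, rfl⟩
      by_contra hzC
      have := h5 z hzC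
      rw [ExpD_cu_x] at this
      omega
  have hTF : ∀ e ∈ T \ F, dd ^ (st i C).card ∣ tC i C e := by
    intro e he
    rw [mem_sdiff, hT, mem_union, mem_image, mem_image, hF, mem_filter, mem_piA] at he
    obtain ⟨h4, h5⟩ := he
    have key : ∑ x, e x = 2 ∧ Spt C e ∧ IsCore i ∅ psi e := by
      rcases h4 with ⟨z, hz, rfl⟩ | ⟨z, hz, rfl⟩
      · rw [mem_filter] at hz
        exact ⟨hsumL z hz.2, spt_cl hC' hz.1, core_cl H (lev_PD hz.2).1⟩
      · rw [mem_filter] at hz
        have := (lev_PU hz.2).1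
        exact ⟨hsumU z hz.2, spt_cu hC' hz.1 (by omega), core_cu H (lev_PU hz.2).1⟩
    have h6 : Rk (st i C) 0 (Fe i e) := by
      by_contra h7
      exact h5 ⟨⟨key.1, key.2.1⟩, key.2.2, h7⟩
    rw [tC_IV H hC' key.2.1]
    have := Rk_IV h6
    simpa using this
  have hsum : ∑ e ∈ T, tC i C e = ∑ z ∈ C.filter (· ∈ PD P i), tC i C (cl z) +
      ∑ z ∈ C.filter (· ∈ PU P i), tC i C (cu z) := by
    rw [hT, Finset.sum_union, Finset.sum_image, Finset.sum_image]
    · intro z hz z' hz' h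
      rw [mem_coe, mem_filter] at hz hz'
      have l1 := (lev_PU hz.2).1
      have l2 := (lev_PU hz'.2).1
      have h4 : cu z z' = 1 := by rw [h, ExpD_cu_x]
      rcases cu_pos (x := z) (y := z') (by omega) with h5 | h5
      · exact h5.symm
      · have := lev_dc H h5
        omega
    · intro z hz z' hz' h
      rw [mem_coe, mem_filter] at hz hz'
      have l1 := (lev_PD hz.2).1
      have l2 := (lev_PD hz'.2).1
      have h4 : cl z z' = 1 := by rw [h, ExpC_cl_z]
      rcases ExpC_cl_pos (z := z) (x := z') (by omega) with h5 | h5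
      · exact h5.symm
      · have := lev_uc H h5
        omega
    · rw [Finset.disjoint_left]
      intro e he he'
      rw [mem_image] at he he'
      obtain ⟨z, hz, rfl⟩ := he
      obtain ⟨z', hz', h⟩ := he'
      rw [mem_filter] at hz hz'
      have l1 := (lev_PD hz.2).1
      have l2 := (lev_PU hz'.2).1
      have h4 : cl z z' = 1 := by rw [← h, ExpD_cu_x]
      have h5 := cl_up_zero H l1 z' (by omega)
      omega
  have hL : ∀ z ∈ C.filter (· ∈ PD P i), tC i C (cl z) = xx ^ 2 * dd ^ ((st i C).card - 1) := by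
    intro z hz
    rw [mem_filter] at hz
    obtain ⟨hl, h1c, y, hzy, hyc⟩ := mem_PD.1 hz.2
    have huc : uc z = {y} := by
      obtain ⟨y', hy'⟩ := Finset.card_eq_one.1 h1c
      have := mem_uc.2 hzy
      rw [hy', mem_singleton] at this
      rw [this]
      exact hy'
    have h4 := sts_PD H hl huc hyc
    have h5 : (sts i z).card ≤ (st i C).card := by
      apply card_le_card
      intro v hv
      rw [mem_sts] at hv
      exact mem_st.2 ⟨part_up hC' hz.1 hv.2.le, hv.1⟩
    rw [(cl_dat H hl).tC H (by omega) (cl_up_zero H hl), h4, h1c, zero_add]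
    congr 2
    omega
  have hU : ∀ z ∈ C.filter (· ∈ PU P i), tC i C (cu z) = xi * dd ^ ((st i C).card - 1) := by
    intro z hz
    rw [mem_filter] at hz
    obtain ⟨hl, h1c, y, hzy, hyc⟩ := mem_PU.1 hz.2
    have hdc : dc z = {y} := by
      obtain ⟨y', hy'⟩ := Finset.card_eq_one.1 h1c
      have := mem_dc.2 hzy
      rw [hy', mem_singleton] at this
      rw [this]
      exact hy'
    have h4 := stD_PU H hl hdc hyc
    have h5 : (stD i z).card ≤ (st i C).card := by
      apply card_le_card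
      intro v hv
      rw [mem_stD_iff H hl] at hv
      obtain ⟨u, hu, hv⟩ := hv
      have l1 := lev_dc H hu
      have l2 := lev_dc H hv
      exact mem_st.2 ⟨hC'.dn (hC'.dn hz.1 (by omega) (mem_dc.1 hu)) (by omega) (mem_dc.1 hv),
        by omega⟩
    rw [(cu_dat H (by omega) hl).tC H (cu_low_zero H hl), h4, h1c, zero_add, pow_one]
    congr 2
    omega
  have h8 : ∑ e ∈ T, tC i C e = ∑ e ∈ F, tC i C e + ∑ e ∈ T \ F, tC i C e := by
    rw [add_comm, Finset.sum_sdiff hFT]
  rw [hsum, Finset.sum_congr rfl hL, Finset.sum_congr rfl hU, Finset.sum_const, Finset.sum_const,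
    nsmul_eq_mul, nsmul_eq_mul, hc] at h8
  have h9 := Finset.dvd_sum hTF
  have h10 : dd ^ (st i C).card ∣ ((C.filter (· ∈ PU P i)).card : A) *
      (xx ^ 2 * dd ^ ((st i C).card - 1)) +
      ((C.filter (· ∈ PU P i)).card : A) * (xi * dd ^ ((st i C).card - 1)) := by
    rcases Finset.eq_empty_or_nonempty (C.filter (· ∈ PU P i)) with h0 | ⟨z, hz⟩
    · rw [h0]
      simp
    · rw [mem_filter] at hz
      obtain ⟨hl, h1c, y, hzy, hyc⟩ := mem_PU.1 hz.2
      have h5 : 1 ≤ (st i C).card := by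
        rw [Nat.one_le_iff_ne_zero, Ne, Finset.card_eq_zero]
        intro h0
        obtain ⟨v, hv⟩ : (dc y).Nonempty := by
          rw [← Finset.card_pos]
          omega
        have l1 := lev_dc H (mem_dc.2 hzy)
        have l2 := lev_dc H hv
        have h6 : v ∈ st i C := mem_st.2
          ⟨hC'.dn (hC'.dn hz.1 (by omega) hzy) (by omega) (mem_dc.1 hv), by omega⟩
        rw [h0] at h6
        exact absurd h6 (Finset.notMem_empty _)
      obtain ⟨b, hb⟩ : ∃ b, (st i C).card = b + 1 := ⟨(st i C).card - 1, by omega⟩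
      rw [hb, Nat.add_sub_cancel, pow_succ]
      obtain ⟨q, hq⟩ := dd_dvd_2
      refine ⟨((C.filter (· ∈ PU P i)).card : A) * q, ?_⟩
      have : ((C.filter (· ∈ PU P i)).card : A) * (xx ^ 2 * dd ^ b) +
          ((C.filter (· ∈ PU P i)).card : A) * (xi * dd ^ b) =
          ((C.filter (· ∈ PU P i)).card : A) * dd ^ b * (xx ^ 2 + xi) := by ring
      rw [this, hq]
      ring
  rw [h8] at h10
  have h11 := dvd_sub h10 h9
  rwa [add_sub_cancel_right] at h11

end Pool.Agent.GaussPoset.Win
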