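import Pool.Agent.W_448so_h64.SoL
import Pool.Agent.W_448al_h63.LH

/-!
SECOND ORDER THEOREM (MP_448cb3_co, proofs row 476): the base formula for a part.
-/

namespace Pool.Agent.GaussPoset.Win

set_option linter.unusedSectionVars false

open Finset OrderDual

universe u

variable {P : Type u} [Fintype P] [PartialOrder P] [DecidableEq P] {r i : ℕ} {psi : P → P}
  {C : Finset P}

/-- at most three sites above an element of level `i + 2` -/
lemma so_up3 (H : Gr P r) (hN : SO.NLL P i) {z : P} (hz : lev z = i + 2) : up i z ≤ 3 := by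
  classical
  rw [← card_sts]
  have h1 : sts i z = (uc z).biUnion uc := by
    ext v
    rw [mem_sts_iff H hz, mem_biUnion]
  rw [h1]
  have h2 := uc_card_le H z
  rcases Nat.lt_or_ge (uc z).card 2 with h3 | h3
  · have h4 : ((uc z).biUnion uc).card ≤ ∑ w ∈ uc z, (uc w).card := Finset.card_biUnion_le
    have h5 : ∑ w ∈ uc z, (uc w).card ≤ ∑ _w ∈ uc z, 2 :=
      Finset.sum_le_sum (fun w _ => uc_card_le H w)
    rw [Finset.sum_const, smul_eq_mul] at h5
    omega
  · obtain ⟨y, y', hne, huc⟩ := Finset.card_eq_two.1 (show (uc z).card = 2 by omega)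
    have hy : y ∈ uc z := by rw [huc]; simp
    have hy' : y' ∈ uc z := by rw [huc]; simp
    have h4 := hN z (by rw [I2.mem_lS]; omega) (by unfold SO.tL; omega) y hy y' hy' hne
    rw [huc, Finset.biUnion_insert, Finset.singleton_biUnion]
    have h6 := Finset.card_union_add_card_inter (uc y) (uc y')
    have h8 := uc_card_le H y
    have h9 := uc_card_le H y'
    omega

/-- at most three sites below an element of level `i - 2` -/
lemma so_dn3 (H : Gr P r) (hN : SO.NLU P i) {x : P} (hx : lev x + 2 = i) : dn i x ≤ 3 := by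
  classical
  rw [← card_stD]
  have h1 : stD i x = (dc x).biUnion dc := by
    ext v
    rw [mem_stD_iff H hx, mem_biUnion]
  rw [h1]
  have h2 := dc_card_le H x
  rcases Nat.lt_or_ge (dc x).card 2 with h3 | h3
  · have h4 : ((dc x).biUnion dc).card ≤ ∑ w ∈ dc x, (dc w).card := Finset.card_biUnion_le
    have h5 : ∑ w ∈ dc x, (dc w).card ≤ ∑ _w ∈ dc x, 2 :=
      Finset.sum_le_sum (fun w _ => dc_card_le H w)
    rw [Finset.sum_const, smul_eq_mul] at h5
    omega
  · obtain ⟨y, y', hne, hdc⟩ := Finset.card_eq_two.1 (show (dc x).card = 2 by omega)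
    have hy : y ∈ dc x := by rw [hdc]; simp
    have hy' : y' ∈ dc x := by rw [hdc]; simp
    have h4 := hN x (by rw [I2.mem_uS]; omega) (by unfold SO.tU; omega) y hy y' hy' hne
    rw [hdc, Finset.biUnion_insert, Finset.singleton_biUnion]
    have h6 := Finset.card_union_add_card_inter (dc y) (dc y')
    have h8 := dc_card_le H y
    have h9 := dc_card_le H y'
    omega

/-- the base formula (copy of `base3`, from the matching and the numbers of sites) -/
theorem so_base3 (H : Gr P r) (hi : 1 ≤ i) (hi2 : i + 1 ≤ r) (hM : Mat P i ∅ psi)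
    (h3 : ∀ z : P, lev z = i + 2 → up i z ≤ 3) (h3' : ∀ x : P, lev x + 2 = i → dn i x ≤ 3)
    (hC : Part (i + 1) C) :
    dd ^ (st i C).card ∣ ∑ e ∈ (Dm i C).piAntidiag 3, tC i C e -
      (((ZL i C).card : A) * (xx ^ 3 * dd ^ ((st i C).card - 1)) +
        ((ZU i C).card : A) * (xi ^ 2 * dd ^ ((st i C).card - 1))) := by
  classical
  have hC' : Part i C := ⟨fun h1 h2 => hC.up h1 h2, fun h1 h2 h3 => hC.dn h1 (by omega) h3⟩
  have hDC : Dm i C ⊆ C := fun x hx => (mem_Dm.1 hx).1
  have hD : ∀ x ∈ C, x ∈ near P i → x ∈ Dm i C := by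
    intro x hx hn
    rw [mem_near] at hn
    refine mem_Dm.2 ⟨hx, fun h => ?_, fun h => ?_⟩
    · have := (lev_PD h).1
      omega
    · have := (lev_PU h).1
      omega
  have hcls : ∀ e : P → ℕ, IsCore i ∅ psi e → Spt (Dm i C) e → ∑ x, e x ≤ 3 →
      Rk (st i C) 0 (Fe i e) ∨ (∃ z, lev z = i + 2 ∧ up i z = 3 ∧ e = cl z) ∨
      (∃ x, lev x + 2 = i ∧ dn i x = 3 ∧ e = cu x) := by
    intro e he hs hn
    rcases cl3 H hi hi2 hM h3 h3' (e := e) (fun z hz => hs z fun h => (mem_Dm.1 h).2.1 hz)
      (fun z hz => hs z fun h => (mem_Dm.1 h).2.2 hz) he hn with h | h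
    · exact Or.inl (Rk_sub (st_sub i C) h)
    · exact Or.inr h
  have h1 := core_part H hi hi2 hC hDC hD hM 3 (by
    intro e he hs hn
    rcases hcls e he hs (by omega) with h | ⟨z, hz, hz2, rfl⟩ | ⟨z, hz, hz2, rfl⟩
    · exact h
    · rw [clb_sum_cl, card_uc_of_up H hz hz2] at hn
      omega
    · rw [sum_cu H, card_dc_of_dn H hz hz2] at hn
      omega)
  set F := (Dm i C).piAntidiag 3 |>.filter
    (fun e => IsCore i ∅ psi e ∧ ¬ Rk (st i C) 0 (Fe i e)) with hF
  set T := (ZL i C).image cl ∪ (ZU i C).image cu with hT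
  have hFT : F ⊆ T := by
    intro e he
    rw [hF, mem_filter, mem_piA] at he
    obtain ⟨⟨h4, h5⟩, h6, h7⟩ := he
    rw [hT, mem_union, mem_image, mem_image]
    rcases hcls e h6 h5 (by omega) with h | ⟨z, hz, hz2, rfl⟩ | ⟨z, hz, hz2, rfl⟩
    · exact absurd h h7
    · left
      refine ⟨z, mem_ZL.2 ⟨?_, hz, hz2⟩, rfl⟩
      by_contra hzC
      have := h5 z fun h => hzC (hDC h)
      rw [ExpC_cl_z] at this
      omega
    · right
      refine ⟨z, mem_ZU.2 ⟨?_, hz, hz2⟩, rfl⟩
      by_contra hzC
      have := h5 z fun h => hzC (hDC h)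
      rw [ExpD_cu_x] at this
      omega
  have hTF : ∀ e ∈ T \ F, dd ^ (st i C).card ∣ tC i C e := by
    intro e he
    rw [mem_sdiff, hT, mem_union, mem_image, mem_image, hF, mem_filter, mem_piA] at he
    obtain ⟨h4, h5⟩ := he
    have key : ∑ x, e x = 3 ∧ Spt (Dm i C) e ∧ IsCore i ∅ psi e ∧ Spt C e := by
      rcases h4 with ⟨z, hz, rfl⟩ | ⟨z, hz, rfl⟩
      · rw [mem_ZL] at hz
        refine ⟨by rw [clb_sum_cl, card_uc_of_up H hz.2.1 hz.2.2], ?_,
          core_cl H hz.2.1, spt_cl hC' hz.1⟩
        intro x hx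
        by_contra h
        apply hx
        have hxC : x ∈ C := by
          by_contra h6
          exact h (spt_cl hC' hz.1 x h6)
        refine mem_Dm.2 ⟨hxC, fun h6 => ?_, fun h6 => ?_⟩
        · have h7 := lev_PD h6
          rcases ExpC_cl_pos (z := z) (x := x) (Nat.pos_of_ne_zero h) with h8 | h8
          · rw [h8] at h7
            have := card_uc_of_up H hz.2.1 hz.2.2
            omega
          · have := lev_uc H h8
            omega
        · have h7 := lev_PU h6
          exact h (cl_up_zero H hz.2.1 x (by omega))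
      · rw [mem_ZU] at hz
        refine ⟨by rw [sum_cu H, card_dc_of_dn H hz.2.1 hz.2.2], ?_,
          core_cu H hz.2.1, spt_cu hC' hz.1 (by omega)⟩
        intro x hx
        by_contra h
        apply hx
        have hxC : x ∈ C := by
          by_contra h6
          exact h (spt_cu hC' hz.1 (by omega) x h6)
        refine mem_Dm.2 ⟨hxC, fun h6 => ?_, fun h6 => ?_⟩
        · have h7 := lev_PD h6
          exact h (cu_low_zero H hz.2.1 x (by omega))
        · have h7 := lev_PU h6
          rcases cu_pos (x := z) (y := x) (Nat.pos_of_ne_zero h) with h8 | h8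
          · rw [h8] at h7
            have := card_dc_of_dn H hz.2.1 hz.2.2
            omega
          · have := lev_dc H h8
            omega
    have h6 : Rk (st i C) 0 (Fe i e) := by
      by_contra h7
      exact h5 ⟨⟨key.1, key.2.1⟩, key.2.2.1, h7⟩
    rw [tC_IV H hC' key.2.2.2]
    have := Rk_IV h6
    simpa using this
  have hsum : ∑ e ∈ T, tC i C e = ∑ z ∈ ZL i C, tC i C (cl z) + ∑ z ∈ ZU i C, tC i C (cu z) := by
    rw [hT, Finset.sum_union, Finset.sum_image, Finset.sum_image]
    · intro z hz z' hz' h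
      rw [mem_coe, mem_ZU] at hz hz'
      have h4 : cu z z' = 1 := by rw [h, ExpD_cu_x]
      rcases cu_pos (x := z) (y := z') (by omega) with h5 | h5
      · exact h5.symm
      · have := lev_dc H h5
        omega
    · intro z hz z' hz' h
      rw [mem_coe, mem_ZL] at hz hz'
      have h4 : cl z z' = 1 := by rw [h, ExpC_cl_z]
      rcases ExpC_cl_pos (z := z) (x := z') (by omega) with h5 | h5
      · exact h5.symm
      · have := lev_uc H h5
        omega
    · rw [Finset.disjoint_left]
      intro e he he'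
      rw [mem_image] at he he'
      obtain ⟨z, hz, rfl⟩ := he
      obtain ⟨z', hz', h⟩ := he'
      rw [mem_ZL] at hz
      rw [mem_ZU] at hz'
      have h4 : cl z z' = 1 := by rw [← h, ExpD_cu_x]
      have h5 := cl_up_zero H hz.2.1 z' (by omega)
      omega
  have hL : ∀ z ∈ ZL i C, tC i C (cl z) = xx ^ 3 * dd ^ ((st i C).card - 1) := by
    intro z hz
    rw [mem_ZL] at hz
    have h4 : (sts i z).card = 3 := by rw [card_sts]; exact hz.2.2
    have h5 : (sts i z).card ≤ (st i C).card := by
      apply card_le_card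
      intro v hv
      rw [mem_sts] at hv
      exact mem_st.2 ⟨part_up hC' hz.1 hv.2.le, hv.1⟩
    rw [(cl_dat H hz.2.1).tC H (by omega) (cl_up_zero H hz.2.1), h4,
      card_uc_of_up H hz.2.1 hz.2.2, zero_add]
    congr 2
    omega
  have hU : ∀ z ∈ ZU i C, tC i C (cu z) = xi ^ 2 * dd ^ ((st i C).card - 1) := by
    intro z hz
    rw [mem_ZU] at hz
    have h4 : (stD i z).card = 3 := by rw [card_stD]; exact hz.2.2
    have h5 : (stD i z).card ≤ (st i C).card := by
      apply card_le_card
      intro v hv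
      rw [mem_stD_iff H hz.2.1] at hv
      obtain ⟨u, hu, hv⟩ := hv
      have l1 := lev_dc H hu
      have l2 := lev_dc H hv
      exact mem_st.2 ⟨hC'.dn (hC'.dn hz.1 (by omega) (mem_dc.1 hu)) (by omega) (mem_dc.1 hv),
        by omega⟩
    rw [(cu_dat H (by omega) hz.2.1).tC H (cu_low_zero H hz.2.1), h4,
      card_dc_of_dn H hz.2.1 hz.2.2, zero_add]
    congr 2
    omega
  have h8 : ∑ e ∈ T, tC i C e = ∑ e ∈ F, tC i C e + ∑ e ∈ T \ F, tC i C e := by
    rw [add_comm, Finset.sum_sdiff hFT]
  rw [hsum, Finset.sum_congr rfl hL, Finset.sum_congr rfl hU, Finset.sum_const, Finset.sum_const,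
    nsmul_eq_mul, nsmul_eq_mul] at h8
  rw [h8]
  have h9 := Finset.dvd_sum hTF
  have h10 := dvd_sub h1 h9
  convert h10 using 1
  ring

end Pool.Agent.GaussPoset.Win
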