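import Pool.Agent.W_448i2_h61.IG

/-! Charges of a side of a window, without the assumption that the level next to the near level is
good (tool (A) of row 476). -/

set_option autoImplicit false

namespace Pool.Agent.GaussPoset.Win.I2

set_option linter.unusedSectionVars false

open Finset

universe u

variable {P : Type u} [DecidableEq P]

/-- one side of a window, no assumption on goodness -/
structure Side0 (c c' : P → Finset P) (t : P → ℕ) (V Sd : Finset P) : Prop where
  dual : ∀ x y, y ∈ c x ↔ x ∈ c' y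
  c2 : ∀ x, (c x).card ≤ 2
  c2' : ∀ x, (c' x).card ≤ 2
  ne : ∀ x ∈ Sd, (c x).Nonempty
  tS : ∀ x ∈ Sd, 1 ≤ t x
  tV : ∀ x ∈ V, t x = 0
  cin : ∀ x ∈ Sd, ∀ y ∈ c x, (y ∈ Sd ∨ y ∈ V) ∧ t x = t y + 1
  cout : ∀ y, (y ∈ Sd ∨ y ∈ V) → ∀ x ∈ c' y, x ∈ Sd

variable {c c' : P → Finset P} {e : P → ℕ} {t : P → ℕ} {V Sd : Finset P}

namespace Side0

lemma kl_of_not_gu (S : Side0 c c' t V Sd) {z : P} (hz : z ∈ Sd) (h : ¬ gu c e z) :
    kl c e z := by
  obtain ⟨a, ha⟩ := S.ne z hz
  refine ⟨a, ha, ?_⟩
  by_contra h2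
  exact h ⟨a, ha, by omega⟩

open Classical in
/-- the killers are the free elements, the killed ones and those with a cover which is not killed -/
lemma card_KK (S : Side0 c c' t V Sd) (adm : ∀ z ∈ Sd, ¬ (kd c' e z ∧ gu c e z)) :
    (KK c e Sd).card = (fr c c' e Sd).card + (KD c' e Sd).card +
      ((KK c e Sd).filter (fun z => gu c e z)).card := by
  have h1 : KK c e Sd = (fr c c' e Sd ∪ KD c' e Sd) ∪ (KK c e Sd).filter (fun z => gu c e z) := by
    ext z
    unfold KK fr KD
    simp only [mem_filter, mem_union]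
    constructor
    · rintro ⟨hz, hk⟩
      by_cases h1 : gu c e z
      · exact Or.inr ⟨⟨hz, hk⟩, h1⟩
      · by_cases h2 : kd c' e z
        · exact Or.inl (Or.inr ⟨hz, h2⟩)
        · exact Or.inl (Or.inl ⟨hz, h2, h1⟩)
    · rintro ((⟨hz, h1, h2⟩ | ⟨hz, h1⟩) | ⟨h, -⟩)
      · exact ⟨hz, kl_of_not_gu S hz h2⟩
      · refine ⟨hz, kl_of_not_gu S hz (fun h2 => adm z hz ⟨h1, h2⟩)⟩
      · exact h
  conv_lhs => rw [h1]
  rw [card_union_of_disjoint, card_union_of_disjoint]
  · rw [disjoint_left]
    intro z hz hz'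
    unfold fr at hz
    unfold KD at hz'
    rw [mem_filter] at hz hz'
    exact hz.2.1 hz'.2
  · rw [disjoint_left]
    intro z hz hz'
    rw [mem_filter] at hz'
    rw [mem_union] at hz
    unfold fr KD at hz
    rw [mem_filter, mem_filter] at hz
    rcases hz with hz | hz
    · exact hz.2.2 hz'.2
    · exact adm z hz.1 ⟨hz.2, hz'.2⟩

open Classical in
/-- double counting of the pairs (killer, killed) with a condition on the killed element -/
lemma double_count (S : Side0 c c' t V Sd) (q : P → Prop) :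
    ∑ a ∈ KD c' e (Sd ∪ V), (if q a then (kr c' e a).card else 0) =
      ∑ z ∈ KK c e Sd, ((kn c e z).filter q).card := by
  have h1 : ∀ z ∈ KK c e Sd, ((kn c e z).filter q).card =
      ∑ a ∈ KD c' e (Sd ∪ V), if (z ∈ kr c' e a ∧ q a) then 1 else 0 := by
    intro z hz
    rw [← Finset.card_filter]
    congr 1
    ext a
    simp only [mem_filter, mem_kn, mem_kr]
    unfold KK at hz
    rw [mem_filter] at hz
    constructor
    · rintro ⟨⟨h1, h2⟩, h3⟩
      refine ⟨?_, ⟨(S.dual z a).1 h1, h2⟩, h3⟩
      unfold KD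
      rw [mem_filter, mem_union]
      exact ⟨(S.cin z hz.1 a h1).1, z, (S.dual z a).1 h1, h2⟩
    · rintro ⟨-, ⟨h1, h2⟩, h3⟩
      exact ⟨⟨(S.dual z a).2 h1, h2⟩, h3⟩
  rw [Finset.sum_congr rfl h1, Finset.sum_comm]
  refine Finset.sum_congr rfl fun a ha => ?_
  by_cases hq : q a
  · rw [if_pos hq, ← Finset.card_filter]
    congr 1
    ext z
    simp only [mem_filter, hq, and_true]
    constructor
    · intro h
      refine ⟨?_, h⟩
      rw [mem_kr] at h
      unfold KD at ha
      rw [mem_filter, mem_union] at ha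
      unfold KK
      rw [mem_filter]
      exact ⟨S.cout a ha.1 z h.1, a, (S.dual z a).2 h.1, h.2⟩
    · exact fun h => h.2
  · simp [hq]

open Classical in
/-- twice the number of killed elements -/
lemma two_card_KD (S : Side0 c c' t V Sd) :
    2 * (KD c' e (Sd ∪ V)).card =
      ∑ z ∈ KK c e Sd, ((kn c e z).card + (so c c' e z).card) := by
  have h1 := double_count (e := e) S (fun _ => True)
  have h2 := double_count (e := e) S (fun a => (kr c' e a).card = 1)
  simp only [if_true, Finset.filter_true] at h1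
  rw [Finset.sum_add_distrib, ← h1]
  have h3 : ∑ z ∈ KK c e Sd, (so c c' e z).card =
      ∑ a ∈ KD c' e (Sd ∪ V), (if (kr c' e a).card = 1 then (kr c' e a).card else 0) := by
    refine Eq.trans ?_ (h2.symm.trans ?_)
    · refine Finset.sum_congr rfl fun z _ => ?_
      unfold so
      congr
    · refine Finset.sum_congr rfl fun a _ => ?_
      split_ifs <;> rfl
  rw [h3, ← Finset.sum_add_distrib, mul_comm, ← smul_eq_mul, ← Finset.sum_const]
  refine Finset.sum_congr rfl fun a ha => ?_
  unfold KD at ha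
  rw [mem_filter, kd_iff, ← Finset.card_pos] at ha
  have h4 : (kr c' e a).card ≤ 2 := (Finset.card_filter_le _ _).trans (S.c2' a)
  split_ifs with h5
  · omega
  · omega

lemma card_KD_union (S : Side0 c c' t V Sd) :
    (KD c' e (Sd ∪ V)).card = (KD c' e Sd).card + (KD c' e V).card := by
  classical
  unfold KD
  rw [filter_union, card_union_of_disjoint]
  rw [disjoint_left]
  intro x hx hx'
  rw [mem_filter] at hx hx'
  have := S.tS x hx.1
  have := S.tV x hx'.1
  omega

/-- the number of killed sites minus the number of free elements, as a sum of charges -/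
theorem sum_cc (S : Side0 c c' t V Sd) (adm : ∀ z ∈ Sd, ¬ (kd c' e z ∧ gu c e z)) :
    ∑ z ∈ KK c e Sd, cc c c' e z =
      2 * ((KD c' e V).card : ℤ) - 2 * ((fr c c' e Sd).card : ℤ) := by
  classical
  have h1 := card_KK S adm
  have h2 := two_card_KD (e := e) S
  have h3 := card_KD_union (e := e) S
  unfold cc
  rw [Finset.sum_sub_distrib, Finset.sum_add_distrib, ← Finset.sum_filter, Finset.sum_const,
    Finset.sum_const]
  have h4 : ((∑ z ∈ KK c e Sd, ((kn c e z).card + (so c c' e z).card) : ℕ) : ℤ) =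
      ∑ z ∈ KK c e Sd, (((kn c e z).card : ℤ) + ((so c c' e z).card : ℤ)) := by
    push_cast
    rfl
  rw [← h4, ← h2, h3]
  simp only [nsmul_eq_mul]
  rw [show ((#(KK c e Sd) : ℕ) : ℤ) = ((fr c c' e Sd).card + (KD c' e Sd).card +
      ((KK c e Sd).filter (fun z => gu c e z)).card : ℕ) by rw [← h1]]
  push_cast
  ring



/-- a killer at distance `t` has label at least `t` -/
lemma t_le_of_kl (S : Side0 c c' t V Sd) (adm : ∀ z ∈ Sd, ¬ (kd c' e z ∧ gu c e z)) :
    ∀ n, ∀ z ∈ Sd, kl c e z → t z = n → n ≤ e z := by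
  intro n
  induction n with
  | zero => intro z _ _ _; exact Nat.zero_le _
  | succ n ih =>
    rintro z hz ⟨a, ha, hlt⟩ hn
    obtain ⟨h1, h2⟩ := S.cin z hz a ha
    rcases h1 with h1 | h1
    · have h3 : kd c' e a := ⟨z, (S.dual z a).1 ha, hlt⟩
      have h4 : kl c e a := kl_of_not_gu S h1 (fun h => adm a h1 ⟨h3, h⟩)
      have := ih a h1 h4 (by omega)
      omega
    · have := S.tV a h1
      omega

lemma so_le (z : P) : (so c c' e z).card ≤ (kn c e z).card := card_le_card (filter_subset _ _)

lemma kn_le (S : Side0 c c' t V Sd) (z : P) : (kn c e z).card ≤ 2 :=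
  (card_le_card (filter_subset _ _)).trans (S.c2 z)

lemma kn_le_one (S : Side0 c c' t V Sd) {z : P} (h : gu c e z) : (kn c e z).card ≤ 1 := by
  obtain ⟨a, ha, hle⟩ := h
  have h1 : kn c e z ⊆ (c z).erase a := by
    intro b hb
    rw [mem_kn] at hb
    rw [mem_erase]
    refine ⟨?_, hb.1⟩
    rintro rfl
    omega
  have h2 := card_le_card h1
  rw [card_erase_of_mem ha] at h2
  have := S.c2 z
  omega

lemma cc_le_two (S : Side0 c c' t V Sd) (z : P) : cc c c' e z ≤ 2 := by
  classical
  unfold cc
  have h1 := so_le (c := c) (c' := c') (e := e) z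
  split_ifs with h
  · have := kn_le_one S h
    omega
  · have := kn_le (e := e) S z
    omega

/-- the structure of an element with charge two -/
lemma cc_eq_two (S : Side0 c c' t V Sd) {z : P} (h : cc c c' e z = 2) :
    (c z).card = 2 ∧ ∀ a ∈ c z, e a < e z → (kr c' e a).card = 1 := by
  classical
  have h1 := so_le (c := c) (c' := c') (e := e) z
  have h2 : (so c c' e z).card = (kn c e z).card ∧ (c z).card = 2 := by
    unfold cc at h
    split_ifs at h with hg
    · have h3 := kn_le_one S hg
      refine ⟨by omega, ?_⟩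
      have h4 : (kn c e z).card = 1 := by omega
      have h5 : (kn c e z).card + ((c z).filter (fun a => ¬ e a < e z)).card = (c z).card := by
        unfold kn
        exact Finset.card_filter_add_card_filter_not _
      obtain ⟨a, ha, hle⟩ := hg
      have h6 : 0 < ((c z).filter (fun a => ¬ e a < e z)).card := by
        rw [card_pos]
        exact ⟨a, mem_filter.2 ⟨ha, by omega⟩⟩
      have := S.c2 z
      omega
    · have h3 := kn_le (e := e) S z
      have h4 : (kn c e z).card ≤ (c z).card := card_le_card (filter_subset _ _)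
      have := S.c2 z
      refine ⟨by omega, by omega⟩
  refine ⟨h2.2, fun a ha hlt => ?_⟩
  have h3 : so c c' e z = kn c e z := by
    apply Finset.eq_of_subset_of_card_le
    · exact filter_subset _ _
    · omega
  have h4 : a ∈ kn c e z := mem_kn.2 ⟨ha, hlt⟩
  rw [← h3, mem_so] at h4
  exact h4.2

lemma mem_bd {z : P} : z ∈ bd c c' e t Sd ↔
    z ∈ Sd ∧ t z = 1 ∧ e z = 1 ∧ kl c e z ∧ cc c c' e z = 2 := by
  classical
  unfold bd
  rw [mem_filter]
end Side0

end Pool.Agent.GaussPoset.Win.I2
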