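import Pool.Agent.W_448so_h61.CA

/-! The two sides of a window as `Side0`; twice the number of killed sites minus free elements is
the sum of the charges of the killers (tool (A) of row 476). -/

set_option autoImplicit false

namespace Pool.Agent.GaussPoset.Win.I2

set_option linter.unusedSectionVars false

open Finset

universe u

section gen

variable {P : Type u} [DecidableEq P]
variable {c c' : P → Finset P} {e : P → ℕ} {t : P → ℕ} {V Sd : Finset P}

lemma so_sub_kn {z : P} : so c c' e z ⊆ kn c e z := filter_subset _ _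

/-- charge of a killer with one cover towards the window -/
lemma cc_one {z : P} (h1 : (c z).card = 1) (hk : kl c e z) :
    cc c c' e z = ((so c c' e z).card : ℤ) - 1 ∧ (so c c' e z).card ≤ 1 := by
  classical
  obtain ⟨a, ha⟩ := card_eq_one.1 h1
  obtain ⟨b, hb, hb2⟩ := hk
  rw [ha, mem_singleton] at hb
  subst hb
  have h2 : kn c e z = {b} := by
    unfold kn
    rw [ha]
    ext x
    rw [mem_filter, mem_singleton]
    constructor
    · exact fun h => h.1
    · rintro rfl
      exact ⟨rfl, hb2⟩
  have h3 : ¬ gu c e z := by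
    rintro ⟨x, hx, hx2⟩
    rw [ha, mem_singleton] at hx
    subst hx
    omega
  have h4 : (so c c' e z).card ≤ 1 := by
    refine (card_le_card so_sub_kn).trans ?_
    rw [h2, card_singleton]
  refine ⟨?_, h4⟩
  unfold cc
  rw [h2, card_singleton, if_neg h3]
  push_cast
  ring

lemma cc_le_zero {z : P} (h1 : (c z).card = 1) (hk : kl c e z) : cc c c' e z ≤ 0 := by
  have h2 := cc_one (c' := c') h1 hk
  have h3 := h2.2
  rw [h2.1]
  omega

/-- a common victim of two killers is the sole victim of none -/
lemma not_so_of_two (S : Side0 c c' t V Sd) {z z' a : P} (hne : z ≠ z') (h1 : a ∈ kn c e z)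
    (h2 : a ∈ kn c e z') : a ∉ so c c' e z := by
  intro h3
  rw [mem_so] at h3
  rw [mem_kn] at h1 h2
  obtain ⟨y, hy⟩ := card_eq_one.1 h3.2
  have h4 : z ∈ kr c' e a := mem_kr.2 ⟨(S.dual z a).1 h1.1, h1.2⟩
  have h5 : z' ∈ kr c' e a := mem_kr.2 ⟨(S.dual z' a).1 h2.1, h2.2⟩
  rw [hy, mem_singleton] at h4 h5
  exact hne (h4.trans h5.symm)

/-- a victim all of whose other elements away from the window are not killers of it -/
lemma mem_so_of {z a : P} (S : Side0 c c' t V Sd) (h1 : a ∈ c z) (h2 : e a < e z)
    (h3 : ∀ x ∈ c' a, x ≠ z → e x ≤ e a) : a ∈ so c c' e z := by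
  rw [mem_so]
  refine ⟨⟨h1, h2⟩, card_eq_one.2 ⟨z, ?_⟩⟩
  ext x
  rw [mem_kr, mem_singleton]
  constructor
  · rintro ⟨h4, h5⟩
    by_contra hne
    have := h3 x h4 hne
    omega
  · rintro rfl
    exact ⟨(S.dual x a).1 h1, h2⟩

/-- the charge with the number of pushed covers -/
lemma cc_le_of_kn (z : P) : cc c c' e z ≤ (kn c e z).card + (so c c' e z).card := by
  unfold cc
  split_ifs <;> omega

end gen

variable {P : Type u} [Fintype P] [PartialOrder P] [DecidableEq P] {r i : ℕ} {e : P → ℕ}

lemma side0_low (H : Gr P r) (i : ℕ) : Side0 uc dc (fun x : P => lev x - i) (lv P i) (lS P i) where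
  dual := by
    intro x y
    rw [mem_uc, mem_dc]
  c2 := uc_card_le H
  c2' := dc_card_le H
  ne := by
    intro x hx
    rw [mem_lS] at hx
    exact uc_nonempty H (by omega)
  tS := by
    intro x hx
    rw [mem_lS] at hx
    omega
  tV := by
    intro x hx
    rw [mem_lv] at hx
    omega
  cin := by
    intro x hx y hy
    rw [mem_lS] at hx
    have := lev_uc H hy
    rw [mem_lS, mem_lv]
    omega
  cout := by
    intro y hy x hx
    rw [mem_lS, mem_lv] at hy
    have := lev_dc H hx
    rw [mem_lS]
    omega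

lemma side0_up (H : Gr P r) (hir : i ≤ r) :
    Side0 dc uc (fun x : P => i - lev x) (lv P i) (uS P i) where
  dual := by
    intro x y
    rw [mem_uc, mem_dc]
  c2 := dc_card_le H
  c2' := uc_card_le H
  ne := by
    intro x hx
    rw [mem_uS] at hx
    exact dc_nonempty H (by omega)
  tS := by
    intro x hx
    rw [mem_uS] at hx
    omega
  tV := by
    intro x hx
    rw [mem_lv] at hx
    omega
  cin := by
    intro x hx y hy
    rw [mem_uS] at hx
    have := lev_dc H hy
    rw [mem_uS, mem_lv]
    omega
  cout := by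
    intro y hy x hx
    rw [mem_uS, mem_lv] at hy
    have := lev_uc H hx
    rw [mem_uS]
    omega

/-- killed sites minus free elements -/
noncomputable def kk (i : ℕ) (e : P → ℕ) : ℤ :=
  (AL i e).card + (AU i e).card - pL i e - pU i e

/-- SUM OF CHARGES -/
theorem two_kk (H : Gr P r) (hir : i ≤ r) (hL : AdmL i e) (hU : AdmU i e) :
    2 * kk i e = ∑ z ∈ KK uc e (lS P i), cc uc dc e z + ∑ z ∈ KK dc e (uS P i), cc dc uc e z := by
  rw [(side0_low H i).sum_cc (adm_low hL), (side0_up H hir).sum_cc (adm_up hU), KD_low, KD_up,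
    fr_low, fr_up]
  unfold kk
  ring

end Pool.Agent.GaussPoset.Win.I2
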