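import Pool.Agent.W_448so_h61.CC

/-!
SECOND ORDER THEOREM (MP_448cb3_co, proofs row 476): the near class of a part.
-/

namespace Pool.Agent.GaussPoset.Win

set_option linter.unusedSectionVars false

open Finset OrderDual

universe u

variable {P : Type u} [Fintype P] [PartialOrder P] [DecidableEq P] {r i : ℕ} {psi : P → P}

/-- the near configurations of both classes together have no deficits -/
theorem so_near_class (H : Gr P r) (hi : 1 ≤ i) (hi2 : i + 1 ≤ r) (hM : Mat P i ∅ psi)
    {C : Finset P} (hC : Part (i + 1) C) {z x y u : P} (hy : lev y = i + 1) (hz : uc z = {y})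
    (h2 : (uc y).card = 2) (hu : lev u + 1 = i) (hx : dc x = {u}) (hyu : dc u = uc y)
    (hzC : z ∈ C) (hxC : x ∈ C) (hpsi : psi y = u) :
    dd ^ (st i C).card ∣ ∑ v ∈ Nr i C y u, tC i C (cl z + sg v) +
      ∑ v ∈ Nr i C y u, tC i C (cu x + sg v) := by
  classical
  have hC' : Part i C := ⟨fun h1 h2 => hC.up h1 h2, fun h1 h2 h3 => hC.dn h1 (by omega) h3⟩
  have hzy : z ⋖ y := by rw [← mem_uc, hz]; exact mem_singleton_self y
  have hlz : lev z = i + 2 := by
    have := lev_uc H (mem_uc.2 hzy)
    omega
  have hyC : y ∈ C := hC.up hzC hzy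
  have hxu : u ⋖ x := by rw [← mem_dc, hx]; exact mem_singleton_self u
  have hlx : lev x + 2 = i := by
    have := lev_dc H (mem_dc.2 hxu)
    omega
  have huC : u ∈ C := hC.dn hxC (by omega) hxu
  have hyd : y ∈ dbL P i := mem_dbL.2 ⟨hy, h2⟩
  have hpsi2 : psi u = y := by
    rw [← hpsi]
    exact (hM.invol y (mem_union_left _ hyd) (Finset.notMem_empty _)).1
  have hR1 : RstC i C psi (cl z) = Nr i C y u := by
    ext w
    rw [mem_RstC, mem_Rst, mem_Nr]
    have hT : w ∈ Tch i (cl z) ↔ w = y := by
      rw [mem_Tch]
      constructor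
      · rintro (⟨h3, v, hv, h4⟩ | ⟨h3, v, hv, h4⟩)
        · have lv := lev_uc H (mem_uc.2 hv)
          rcases ExpC_cl_pos h4 with h5 | h5
          · rw [h5] at hv
            have h6 := mem_uc.2 hv
            rwa [hz, mem_singleton] at h6
          · rw [hz, mem_singleton] at h5
            rw [h5] at lv
            omega
        · have lv := lev_uc H (mem_uc.2 hv)
          have := cl_up_zero H hlz v (by omega)
          omega
      · rintro rfl
        exact Or.inl ⟨hy, z, hzy, by rw [ExpC_cl_z]; exact one_pos⟩
    constructor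
    · rintro ⟨⟨h3, -, h4, h5⟩, h6⟩
      refine ⟨h6, h3, fun h => h4 (hT.2 h), ?_⟩
      rintro rfl
      apply h5
      refine ⟨mem_union_right _ (mem_dbU.2 ⟨hu, by rw [hyu]; exact h2⟩), ?_⟩
      rw [hpsi2, mem_Tch]
      exact Or.inl ⟨hy, z, hzy, by rw [ExpC_cl_z]; exact one_pos⟩
    · rintro ⟨h3, h4, h5, h6⟩
      refine ⟨⟨h4, Finset.notMem_empty _, fun h => h5 (hT.1 h), ?_⟩, h3⟩
      rintro ⟨h7, h8⟩
      have h9 : psi w = y := by
        rw [mem_Tch] at h8
        rcases h8 with ⟨h10, v, hv, h11⟩ | ⟨h10, v, hv, h11⟩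
        · rcases ExpC_cl_pos h11 with h12 | h12
          · rw [h12] at hv
            have h13 := mem_uc.2 hv
            rwa [hz, mem_singleton] at h13
          · rw [hz, mem_singleton] at h12
            have lv := lev_uc H (mem_uc.2 hv)
            rw [h12] at lv
            omega
        · have lv := lev_uc H (mem_uc.2 hv)
          have := cl_up_zero H hlz v (by omega)
          omega
      apply h6
      rw [← (hM.invol w h7 (Finset.notMem_empty _)).1, h9, hpsi]
  have hR2 : RstC i C psi (cu x) = Nr i C y u := by
    ext w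
    rw [mem_RstC, mem_Rst, mem_Nr]
    have hT : ∀ w, w ∈ Tch i (cu x) ↔ w = u := by
      intro w
      rw [mem_Tch]
      constructor
      · rintro (⟨h3, v, hv, h4⟩ | ⟨h3, v, hv, h4⟩)
        · have lv := lev_uc H (mem_uc.2 hv)
          have := cu_low_zero H hlx v (by omega)
          omega
        · have lv := lev_uc H (mem_uc.2 hv)
          rcases cu_pos h4 with h5 | h5
          · rw [h5] at hv
            have h6 := mem_dc.2 hv
            rwa [hx, mem_singleton] at h6
          · rw [hx, mem_singleton] at h5
            rw [h5] at lv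
            omega
      · rintro rfl
        exact Or.inr ⟨hu, x, hxu, by rw [ExpD_cu_x]; exact one_pos⟩
    constructor
    · rintro ⟨⟨h3, -, h4, h5⟩, h6⟩
      refine ⟨h6, h3, ?_, fun h => h4 ((hT w).2 h)⟩
      rintro rfl
      apply h5
      refine ⟨mem_union_left _ hyd, ?_⟩
      rw [hpsi, hT]
    · rintro ⟨h3, h4, h5, h6⟩
      refine ⟨⟨h4, Finset.notMem_empty _, fun h => h6 ((hT w).1 h), ?_⟩, h3⟩
      rintro ⟨h7, h8⟩
      rw [hT] at h8
      apply h5
      rw [← (hM.invol w h7 (Finset.notMem_empty _)).1, h8, hpsi2]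
  -- the sums as weighted sums
  have hwt : ∀ v ∈ Nr i C y u, ∀ S, wt i (cu x) v 1 S = wt i (cl z) v 1 S := by
    intro v _ S
    have hs : ∀ w, lev w = i → cu x w = cl z w := by
      intro w hw
      have h3 : cu x w = 0 := by
        by_contra h
        rcases cu_pos (Nat.pos_of_ne_zero h) with h4 | h4
        · rw [h4] at hw
          omega
        · rw [hx, mem_singleton] at h4
          rw [h4] at hw
          omega
      have h4 : cl z w = 0 := by
        by_contra h
        rcases ExpC_cl_pos (Nat.pos_of_ne_zero h) with h4 | h4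
        · rw [h4] at hw
          omega
        · rw [hz, mem_singleton] at h4
          rw [h4] at hw
          omega
      rw [h3, h4]
    unfold wt
    split_ifs with hv1
    · unfold wtL
      have e1 : (∀ w ∈ uc v, cu x w < 1) ↔ ∀ w ∈ uc v, cl z w < 1 := by
        constructor
        · intro h w hw
          have := lev_uc H hw
          rw [← hs w (by omega)]
          exact h w hw
        · intro h w hw
          have := lev_uc H hw
          rw [hs w (by omega)]
          exact h w hw
      have e2 : (∀ w ∈ uc v, cu x w < 1 → w ∈ S) ↔ ∀ w ∈ uc v, cl z w < 1 → w ∈ S := by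
        constructor
        · intro h w hw
          have := lev_uc H hw
          rw [← hs w (by omega)]
          exact h w hw
        · intro h w hw
          have := lev_uc H hw
          rw [hs w (by omega)]
          exact h w hw
      simp only [e1, e2]
    · have hv2 : lev v + 1 = i := by
        have := (mem_Nr.1 (by assumption)).2.1
        rw [mem_near] at this
        omega
      unfold wtU
      have e1 : (∀ w ∈ dc v, cu x w < 1) ↔ ∀ w ∈ dc v, cl z w < 1 := by
        constructor
        · intro h w hw
          have := lev_dc H hw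
          rw [← hs w (by omega)]
          exact h w hw
        · intro h w hw
          have := lev_dc H hw
          rw [hs w (by omega)]
          exact h w hw
      have e2 : (∀ w ∈ dc v, cu x w < 1 → w ∉ S) ↔ ∀ w ∈ dc v, cl z w < 1 → w ∉ S := by
        constructor
        · intro h w hw
          have := lev_dc H hw
          rw [← hs w (by omega)]
          exact h w hw
        · intro h w hw
          have := lev_dc H hw
          rw [hs w (by omega)]
          exact h w hw
      simp only [e1, e2]
  have hsp1 : ∀ v ∈ Nr i C y u, Spt C (cl z + sg v) := by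
    intro v hv
    rw [spt_add_iff]
    refine ⟨spt_cl hC' hzC, fun w hw => ?_⟩
    exact ExpC_sg_ne (by rintro rfl; exact hw (mem_Nr.1 hv).1)
  have hsp2 : ∀ v ∈ Nr i C y u, Spt C (cu x + sg v) := by
    intro v hv
    rw [spt_add_iff]
    refine ⟨spt_cu hC' hxC (by omega), fun w hw => ?_⟩
    exact ExpC_sg_ne (by rintro rfl; exact hw (mem_Nr.1 hv).1)
  have f1 : ∀ v ∈ Nr i C y u, tC i C (cl z + sg v) =
      IV (st i C) (fun S => Fe i (cl z) S * wt i (cl z) v 1 S) := by
    intro v hv
    rw [tC_IV H hC' (hsp1 v hv)]
    refine IV_congr fun S _ => ?_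
    rw [← hR1] at hv
    exact fact H (by omega) (RstC_near hv) (RstC_Tch v hv) (by
      have := (core_cl (psi := psi) H hlz) v (mem_RstC.1 hv).1
      exact this) 1 S
  have f2 : ∀ v ∈ Nr i C y u, tC i C (cu x + sg v) =
      IV (st i C) (fun S => Fe i (cu x) S * wt i (cl z) v 1 S) := by
    intro v hv
    rw [tC_IV H hC' (hsp2 v hv)]
    refine IV_congr fun S _ => ?_
    rw [← hwt v hv S]
    rw [← hR2] at hv
    exact fact H (by omega) (RstC_near hv) (RstC_Tch v hv) (by
      have := (core_cu (psi := psi) H hlx) v (mem_RstC.1 hv).1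
      exact this) 1 S
  rw [Finset.sum_congr rfl f1, Finset.sum_congr rfl f2, ← IV_sum, ← IV_sum, ← IV_add]
  -- the weights
  have hw1 : Rk (st i C) 0 (fun S => ∑ v ∈ Nr i C y u, wt i (cl z) v 1 S) := by
    have h3 := rest_Rk (e := cl z) H hi hi2 hC hM (cl z) 1
    rw [hR1] at h3
    refine Rk_congr (fun S _ => ?_) h3
    have h4 : (Nr i C y u).piAntidiag 1 = (Nr i C y u).image (fun v => sg v) := by
      ext l
      rw [mem_piA, mem_image]
      constructor
      · rintro ⟨h5, h6⟩
        obtain ⟨v, hv⟩ : ∃ v, l v ≠ 0 := by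
          by_contra hcon
          push Not at hcon
          rw [Finset.sum_eq_zero (fun v _ => hcon v)] at h5
          omega
        have hvN : v ∈ Nr i C y u := by
          by_contra h
          exact hv (h6 v h)
        have h7 := Finset.add_sum_erase univ l (mem_univ v)
        rw [h5] at h7
        refine ⟨v, hvN, ?_⟩
        funext w
        by_cases hwv : w = v
        · rw [hwv, ExpC_sg_self]
          omega
        · rw [ExpC_sg_ne hwv]
          have h8 : ∑ w ∈ univ.erase v, l w = 0 := by omega
          rw [Finset.sum_eq_zero_iff] at h8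
          exact (h8 w (mem_erase.2 ⟨hwv, mem_univ _⟩)).symm
      · rintro ⟨v, hv, rfl⟩
        refine ⟨?_, fun w hw => ExpC_sg_ne (by rintro rfl; exact hw hv)⟩
        unfold sg
        rw [Finset.sum_pi_single']
        simp
    rw [h4, Finset.sum_image]
    · refine Finset.sum_congr rfl fun v hv => ?_
      rw [← Finset.mul_prod_erase _ _ hv, ExpC_sg_self]
      rw [Finset.prod_eq_one, mul_one]
      intro w hw
      rw [mem_erase] at hw
      rw [ExpC_sg_ne hw.1]
      exact wt_zero H (by omega) (mem_Nr.1 hw.2).2.1 _ _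
    · intro v _ v' _ h
      have h5 : sg v v = sg v' v := congrFun h v
      rw [ExpC_sg_self] at h5
      by_contra hne
      rw [ExpC_sg_ne hne] at h5
      omega
  have hw2 : Rk (st i C) 0 (fun S => Fe i (cl z) S + Fe i (cu x) S) := by
    obtain ⟨p, q, hpq, huc⟩ := Finset.card_eq_two.1 h2
    have hp : p ∈ uc y := by rw [huc]; simp
    have hq : q ∈ uc y := by rw [huc]; simp
    have lp := lev_uc H hp
    have lq := lev_uc H hq
    have hpC : p ∈ st i C := mem_st.2 ⟨hC.up hyC (mem_uc.1 hp), by omega⟩
    have hqC : q ∈ st i C := mem_st.2 ⟨hC.up hyC (mem_uc.1 hq), by omega⟩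
    refine Rk_congr (fun S _ => ?_) (FactF_big hpC hqC hpq)
    have s1 : sts i z = {p, q} := by rw [ClE_sts H hlz hz, huc]
    have s2 : stD i x = {p, q} := by rw [ClE_stD H hlx hx, hyu, huc]
    rw [(cl_dat H hlz).Fe H (by omega) (cl_up_zero H hlz), (cu_dat H (by omega) hlx).Fe H
      (cu_low_zero H hlx), s1, s2, hz, hx]
    simp only [Finset.card_singleton, pow_one, pow_zero, one_mul, zero_add]
    unfold chi
    congr 1
    · congr 1
      refine if_congr ?_ rfl rfl
      rw [Finset.insert_subset_iff, Finset.singleton_subset_iff]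
      simp
    · congr 1
      refine if_congr ?_ rfl rfl
      rw [Finset.disjoint_insert_left, Finset.disjoint_singleton_left]
      simp
  have h5 := Rk_IV (Rk_mul hw2 hw1)
  simp only [add_zero, Nat.sub_zero] at h5
  convert h5 using 1
  refine IV_congr fun S _ => ?_
  rw [Finset.sum_congr rfl (fun v _ => rfl), ← Finset.mul_sum, ← Finset.mul_sum]
  ring

end Pool.Agent.GaussPoset.Win
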