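import Pool.Agent.W_448so_h61.CD

/-!
SECOND ORDER THEOREM (MP_448cb3_co, proofs row 476): the value of (3,1) of a part.
-/

namespace Pool.Agent.GaussPoset.Win

set_option linter.unusedSectionVars false

open Finset OrderDual

universe u

variable {P : Type u} [Fintype P] [PartialOrder P] [DecidableEq P] {r i : ℕ} {psi : P → P}

/-- `PD` and `PU` of the part are matched by `psi`: both empty or one element each -/
structure MtcP (i : ℕ) (C : Finset P) (psi : P → P) : Prop where
  out : (∀ z ∈ C, z ∉ PD P i ∧ z ∉ PU P i) ∨
    ∃ z x y u, z ∈ C ∧ x ∈ C ∧ z ∈ PD P i ∧ x ∈ PU P i ∧ uc z = {y} ∧ dc x = {u} ∧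
      dc u = uc y ∧ (uc y).card = 2 ∧ (∀ z' ∈ C, z' ∈ PD P i → z' = z) ∧
      (∀ x' ∈ C, x' ∈ PU P i → x' = x) ∧ psi y = u

/-- THE VALUE OF (3,1), divisibility form -/
theorem so_val3 (H : Gr P r) (hi : 1 ≤ i) (hi2 : i + 1 ≤ r) (hMa : Mat P i ∅ psi)
    (hu3 : ∀ z : P, lev z = i + 2 → up i z ≤ 3) (hd3 : ∀ x : P, lev x + 2 = i → dn i x ≤ 3)
    {C : Finset P} (hC : Part (i + 1) C)
    (hb : 1 ≤ (st i C).card) (hM : MtcP i C psi) :
    dd ^ (st i C).card ∣ ZC i C 3 -
      (((ZL i C).card : A) * xx ^ 3 + ((ZU i C).card : A) * xi ^ 2 +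
        ((FL i C).card : A) * xx ^ 2 + ((FU' i C).card : A) * xi) * dd ^ ((st i C).card - 1) := by
  classical
  have hC' : Part i C := ⟨fun h1 h2 => hC.up h1 h2, fun h1 h2 h3 => hC.dn h1 (by omega) h3⟩
  have hbase := so_base3 H hi hi2 hMa hu3 hd3 hC
  rcases hM.out with hN | ⟨z, x, y, u, hzC, hxC, hzP, hxP, hz, hx, hyu, h2, hz1, hx1, hone⟩
  · have e1 : Dm i C = C := by
      ext w
      rw [mem_Dm]
      exact ⟨fun h => h.1, fun h => ⟨h, hN w h⟩⟩
    have e2 : FL i C = ∅ := by
      rw [Finset.eq_empty_iff_forall_notMem]
      intro w hw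
      obtain ⟨h3, z, hz, hz2⟩ := mem_FL.1 hw
      have h4 : z ∈ C := by
        refine hC.up h3 ?_
        rw [← mem_uc, hz2]
        exact mem_singleton_self z
      exact (hN z h4).1 hz
    have e3 : FU' i C = ∅ := by
      rw [Finset.eq_empty_iff_forall_notMem]
      intro w hw
      obtain ⟨h3, z, hz, hz2⟩ := mem_FU'.1 hw
      have hzw : z ⋖ w := by
        rw [← mem_dc, hz2]
        exact mem_singleton_self z
      have l1 := lev_uc H (mem_uc.2 hzw)
      have l2 := (lev_PU hz).1
      have h4 : z ∈ C := hC.dn h3 (by omega) hzw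
      exact (hN z h4).2 hz
    rw [e1] at hbase
    rw [e2, e3]
    unfold ZC
    convert hbase using 1
    simp only [Finset.card_empty, Nat.cast_zero, zero_mul, add_zero]
    ring
  · have lz := (lev_PD hzP).1
    have lx := (lev_PU hxP).1
    have hzy : z ⋖ y := by rw [← mem_uc, hz]; exact mem_singleton_self y
    have hux : u ⋖ x := by rw [← mem_dc, hx]; exact mem_singleton_self u
    have ly : lev y = i + 1 := by
      have := lev_uc H (mem_uc.2 hzy)
      omega
    have lu : lev u + 1 = i := by
      have := lev_uc H (mem_uc.2 hux)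
      omega
    have hyC : y ∈ C := hC.up hzC hzy
    have huC : u ∈ C := hC.dn hxC (by omega) hux
    -- decomposition of the sum
    have hdec : ZC i C 3 = ∑ e ∈ (Dm i C).piAntidiag 3, tC i C e +
        ∑ e ∈ (C.piAntidiag 3).filter (fun e => e z ≠ 0), tC i C e +
        ∑ e ∈ (C.piAntidiag 3).filter (fun e => e x ≠ 0), tC i C e := by
      unfold ZC
      rw [← Finset.sum_filter_add_sum_filter_not (C.piAntidiag 3) (fun e => e z ≠ 0)]
      rw [← Finset.sum_filter_add_sum_filter_not ((C.piAntidiag 3).filter (fun e => ¬ e z ≠ 0))
        (fun e => e x ≠ 0), Finset.filter_filter, Finset.filter_filter]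
      have e1 : ∑ e ∈ (C.piAntidiag 3).filter (fun e => ¬ e z ≠ 0 ∧ e x ≠ 0), tC i C e =
          ∑ e ∈ (C.piAntidiag 3).filter (fun e => e x ≠ 0), tC i C e := by
        refine Finset.sum_subset ?_ ?_
        · intro e he
          rw [mem_filter] at he ⊢
          exact ⟨he.1, he.2.2⟩
        · intro e he hne
          rw [mem_filter, mem_piA] at he
          have hez : e z ≠ 0 := by
            by_contra h
            apply hne
            rw [mem_filter, mem_piA]
            exact ⟨he.1, fun h' => h' h, he.2⟩
          by_cases hA : AdmL i e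
          · by_cases hB : AdmU i e
            · exfalso
              have h4 := pos_up H hA (z := z) (y := y) (by omega) (by omega) hzy
              have h5 := pos_dn H (by omega) hB (x := x) (y := u) (by omega) (by
                have := he.2
                omega) hux
              have h6 : ({z, y, x, u} : Finset P).card = 4 := by
                rw [Finset.card_insert_of_notMem, Finset.card_insert_of_notMem,
                  Finset.card_insert_of_notMem, card_singleton]
                · rw [mem_singleton]
                  rintro rfl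
                  omega
                · rw [mem_insert, mem_singleton, not_or]
                  refine ⟨?_, ?_⟩
                  · rintro rfl
                    omega
                  · rintro rfl
                    omega
                · rw [mem_insert, mem_insert, mem_singleton, not_or, not_or]
                  refine ⟨?_, ?_, ?_⟩
                  · rintro rfl
                    omega
                  · rintro rfl
                    omega
                  · rintro rfl
                    omega
              have h7 : ∑ w ∈ ({z, y, x, u} : Finset P), e w ≤ ∑ w, e w :=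
                Finset.sum_le_sum_of_subset (subset_univ _)
              have h8 : ({z, y, x, u} : Finset P).card ≤ ∑ w ∈ ({z, y, x, u} : Finset P), e w := by
                rw [Finset.card_eq_sum_ones]
                refine Finset.sum_le_sum fun w hw => ?_
                rw [mem_insert, mem_insert, mem_insert, mem_singleton] at hw
                have := he.2
                rcases hw with rfl | rfl | rfl | rfl <;> omega
              have := he.1.1
              omega
            · exact tC_not_admU hB
          · exact tC_not_admL hA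
      have e2 : (C.piAntidiag 3).filter (fun e => ¬ e z ≠ 0 ∧ ¬ e x ≠ 0) =
          (Dm i C).piAntidiag 3 := by
        ext e
        rw [mem_filter, mem_piA, mem_piA]
        constructor
        · rintro ⟨⟨h3, h4⟩, h5, h6⟩
          refine ⟨h3, fun w hw => ?_⟩
          by_contra hne
          have hwC : w ∈ C := by
            by_contra h
            exact hne (h4 w h)
          apply hw
          refine mem_Dm.2 ⟨hwC, fun h7 => ?_, fun h7 => ?_⟩
          · rw [hz1 w hwC h7] at hne
            exact h5 hne
          · rw [hx1 w hwC h7] at hne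
            exact h6 hne
        · rintro ⟨h3, h4⟩
          refine ⟨⟨h3, fun w hw => h4 w fun h => hw (mem_Dm.1 h).1⟩, ?_, ?_⟩
          · rw [not_not]
            exact h4 z fun h => (mem_Dm.1 h).2.1 hzP
          · rw [not_not]
            exact h4 x fun h => (mem_Dm.1 h).2.2 hxP
      rw [e1, e2]
      ring
    have hspt1 : ∀ v ∈ C, Spt C (cl z + sg v) := by
      intro v hv
      rw [spt_add_iff]
      exact ⟨spt_cl hC' hzC, fun w hw => ExpC_sg_ne (by rintro rfl; exact hw hv)⟩
    have hspt2 : ∀ v ∈ C, Spt C (cu x + sg v) := by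
      intro v hv
      rw [spt_add_iff]
      exact ⟨spt_cu hC' hxC (by omega), fun w hw => ExpC_sg_ne (by rintro rfl; exact hw hv)⟩
    rw [split_cl H lz hz, split_cu H (by omega) lx hx, Finset.filter_true_of_mem hspt1,
      Finset.filter_true_of_mem hspt2,
      low_class H (by omega) hC ly hz h2 lu hyu hzC (by
        intro z' hz' huc
        apply hz1 z' hz'
        unfold PD
        rw [mem_filter]
        refine ⟨mem_univ _, ?_, by rw [huc, card_singleton], y, ?_, h2⟩
        · have := lev_uc H (x := z') (v := y) (by rw [huc]; exact mem_singleton_self y)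
          omega
        · rw [← mem_uc, huc]
          exact mem_singleton_self y),
      upp_class H hi2 hC lu hx (by rw [hyu]; exact h2) ly hyu hxC (by
        intro x' hx' hdc
        apply hx1 x' hx'
        unfold PU
        rw [mem_filter]
        refine ⟨mem_univ _, ?_, by rw [hdc, card_singleton], u, ?_, by rw [hyu]; exact h2⟩
        · have := lev_dc H (x := x') (v := u) (by rw [hdc]; exact mem_singleton_self u)
          omega
        · rw [← mem_dc, hdc]
          exact mem_singleton_self u)] at hdec
    have hnear := so_near_class H hi hi2 hMa hC ly hz h2 lu hx hyu hzC hxC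
      hone
    have e4 : FL i C = FLo C z := by
      ext w
      rw [mem_FL, mem_FLo]
      constructor
      · rintro ⟨h3, z', h4, h5⟩
        refine ⟨h3, ?_⟩
        rw [← hz1 z' ?_ h4]
        · exact h5
        · refine hC.up h3 ?_
          rw [← mem_uc, h5]
          exact mem_singleton_self z'
      · rintro ⟨h3, h4⟩
        exact ⟨h3, z, hzP, h4⟩
    have e5 : FU' i C = FUp C x := by
      ext w
      rw [mem_FU', mem_FUp]
      constructor
      · rintro ⟨h3, z', h4, h5⟩
        refine ⟨h3, ?_⟩
        have hzw : z' ⋖ w := by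
          rw [← mem_dc, h5]
          exact mem_singleton_self z'
        have l1 := lev_uc H (mem_uc.2 hzw)
        have l2 := (lev_PU h4).1
        rw [← hx1 z' (hC.dn h3 (by omega) hzw) h4]
        exact h5
      · rintro ⟨h3, h4⟩
        exact ⟨h3, x, hxP, h4⟩
    rw [e4, e5, hdec]
    -- constants
    have hb2 : 2 ≤ (st i C).card := by
      rw [← h2]
      apply card_le_card
      intro v hv
      have := lev_uc H hv
      exact mem_st.2 ⟨hC.up hyC (mem_uc.1 hv), by omega⟩
    have hcast : (((st i C).card - 2 : ℕ) : A) = ((st i C).card : A) - 2 := by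
      rw [Nat.cast_sub hb2]
      norm_num
    have hpow : dd ^ (st i C).card = dd * dd ^ ((st i C).card - 1) := by
      rw [← pow_succ']
      congr 1
      omega
    have hk : dd ^ (st i C).card ∣ ((xx ^ 3 + xi ^ 2) + (((st i C).card : A) - 1) * (xx ^ 2 + xi) +
        2 * (1 + xx)) * dd ^ ((st i C).card - 1) := by
      rw [hpow]
      refine mul_dvd_mul (dvd_add (dvd_add dd_dvd_3 ?_) ?_) dvd_rfl
      · exact Dvd.dvd.mul_left dd_dvd_2 _
      · exact Dvd.dvd.mul_left dd_dvd_1 _
    have htot := dvd_add (dvd_add hbase hnear) hk
    rw [hcast]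
    convert htot using 1
    ring

/-- THE VALUE OF (3,1) -/
theorem so_al3_val (H : Gr P r) (hi : 1 ≤ i) (hi2 : i + 1 ≤ r) (hMa : Mat P i ∅ psi)
    (hu3 : ∀ z : P, lev z = i + 2 → up i z ≤ 3) (hd3 : ∀ x : P, lev x + 2 = i → dn i x ≤ 3)
    {C : Finset P} (hC : Part (i + 1) C)
    (hb : 1 ≤ (st i C).card) (hM : MtcP i C psi) :
    I2.al 3 (st i C).card (ZS i C) =
      (ZU i C).card - (ZL i C).card + (FL i C).card - (FU' i C).card := by
  have h1 := so_val3 H hi hi2 hMa hu3 hd3 hC hb hM
  obtain ⟨q, hq⟩ := h1
  set κ : A := ((ZL i C).card : A) * xx ^ 3 + ((ZU i C).card : A) * xi ^ 2 +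
        ((FL i C).card : A) * xx ^ 2 + ((FU' i C).card : A) * xi with hκ
  have h2 : dd * ZC i C 3 = dd ^ (st i C).card * (κ + dd * q) := by
    have h3 : ZC i C 3 = κ * dd ^ ((st i C).card - 1) + dd ^ (st i C).card * q := by
      rw [← hq]
      ring
    have hpow : dd ^ (st i C).card = dd * dd ^ ((st i C).card - 1) := by
      rw [← pow_succ']
      congr 1
      omega
    rw [h3]
    calc dd * (κ * dd ^ ((st i C).card - 1) + dd ^ (st i C).card * q)
        = κ * (dd * dd ^ ((st i C).card - 1)) + dd ^ (st i C).card * (dd * q) := by ring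
      _ = _ := by rw [← hpow]; ring
  unfold I2.al
  rw [coeff_ZS, h2]
  unfold dd
  have h4 := PowerSeries.coeff_X_pow_mul (κ + PowerSeries.X * q) (st i C).card 0
  rw [zero_add] at h4
  rw [h4, PowerSeries.coeff_zero_eq_constantCoeff, map_add, map_mul, PowerSeries.constantCoeff_X,
    zero_mul, add_zero, hκ]
  simp only [map_add, map_mul, map_pow, cc_xx, cc_xi, map_natCast]
  norm_num
  ring

end Pool.Agent.GaussPoset.Win
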